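import Pool.Agent.E9helper80.GP.Fin

/-!
# MP_147277_co, Q1: good permutations of `ℤ/n` exist for all large `n`

Proof.

1. *Blow-up.* Let `n = M q + r`, `0 ≤ r < M`. Cut `{0, ..., n-1}` into `M` consecutive blocks of size
   `q` or `q + 1`, permute the blocks by a good permutation of `ℤ/M` (or of the interval of length
   `M`), and use in every block a good permutation of the interval. If `q` is large compared with `M`,
   the only triples which are not controlled by the blocks are those close to the ends of the blocks;
   they are controlled if the permutations in the blocks map the left ends to places close to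
   `0.36 q` and the right ends to places close to `0.6 q`, and if the inverse permutations do the
   same.
2. *Intervals.* Explicit good permutations of the intervals of length `256` and `257` with this
   property, and explicit coarse permutations of `12` and `13` blocks which preserve it, give all
   lengths in `[256 P, 257 P]` for all `P = 12 ^ a 13 ^ b`. As `1 < 12 ^ 32 / 13 ^ 31 < 257 / 256`,
   these are all large lengths.
3. *One cyclic group.* A triple with `a + c - 2 b = e` and `π a + π c - 2 π b = E` has the type
   `(e, E)`. Explicit permutations of `ℤ/16`, `ℤ/17`, `ℤ/19`, `ℤ/21` avoid the type `(0, 0)` and two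
   more types each, together all nine types; by the Chinese remainder theorem their product is a good
   permutation of `ℤ/108528`.
4. The blow-up of the latter gives all large cyclic groups.
-/

set_option autoImplicit false

namespace Pool.Agent.Results.MP_147277_co.AllLargeOrders

/-- `π` is good: every triple `(a, b, c)`, not all equal, with `|[a + c - 2 b]_n| ≤ 1` satisfies
`|[π a + π c - 2 π b]_n| ≥ 2`. -/
def Good (n : ℕ) (π : Equiv.Perm (ZMod n)) : Prop :=
  ∀ a b c : ZMod n, ¬ (a = b ∧ b = c) → (a + c - 2 * b).valMinAbs.natAbs ≤ 1 →
    2 ≤ (π a + π c - 2 * π b).valMinAbs.natAbs

theorem result : ∃ N : ℕ, ∀ n : ℕ, N ≤ n → ∃ π : Equiv.Perm (ZMod n), Good n π :=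
  Pool.Agent.E9helper80.GP.all_large

end Pool.Agent.Results.MP_147277_co.AllLargeOrders
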